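import Pool.Agent.Q255.EP.Stm2

/-!
# Finite changes of the signs, relative entropy of words
-/

set_option autoImplicit false

namespace Pool.Agent.Q255.EP

open Filter Topology MeasureTheory Pool.Agent.Q255.IC Pool.Agent.Q255.IR

/-- the information up to `x` is at most `x^(δ + o(1))` -/
def IL (ν : Measure (ℕ → Bool)) (δ : ℝ) : Prop :=
  ∀ ε : ℝ, 0 < ε → ∀ᶠ x : ℕ in atTop, D ν (Nat.primeCounting x) ≤ (x : ℝ) ^ (δ + ε)

theorem measurable_ov (F G : Finset ℕ) : Measurable (ov F G) := by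
  refine measurable_pi_lambda _ fun k => ?_
  unfold ov
  by_cases hk : k ∈ F
  · simp only [if_pos hk]
    exact measurable_const
  · simp only [if_neg hk]
    exact measurable_pi_apply k

theorem IL_map (hF : S_FIN) {ν : Measure (ℕ → Bool)} [IsProbabilityMeasure ν] {δ : ℝ} (hδ : 0 ≤ δ)
    (h : IL ν δ) (F G : Finset ℕ) : IL (ν.map (ov F G)) δ := by
  intro ε hε
  have h1 := h (ε / 2) (by positivity)
  have h2 : ∀ᶠ x : ℕ in atTop, 2 * max 1 (F.card * Real.log 2) ≤ (x : ℝ) ^ (ε / 2) :=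
    ((tendsto_rpow_atTop (by positivity : (0 : ℝ) < ε / 2)).comp
      tendsto_natCast_atTop_atTop).eventually_ge_atTop _
  filter_upwards [h1, h2, eventually_ge_atTop 1] with x hx1 hx2 hx3
  have hx : (1 : ℝ) ≤ x := by exact_mod_cast hx3
  have hxp : (0 : ℝ) < x := by linarith
  refine ((hF ν F G).2 _).trans ?_
  have e1 : (x : ℝ) ^ (δ + ε) = (x : ℝ) ^ (δ + ε / 2) * (x : ℝ) ^ (ε / 2) := by
    rw [← Real.rpow_add hxp]
    congr 1
    ring
  have h3 : (1 : ℝ) ≤ (x : ℝ) ^ (δ + ε / 2) := Real.one_le_rpow hx (by positivity)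
  have h4 : (1 : ℝ) ≤ max 1 (F.card * Real.log 2) := le_max_left _ _
  have h5 : (F.card * Real.log 2 : ℝ) ≤ max 1 (F.card * Real.log 2) := le_max_right _ _
  rw [e1]
  nlinarith [mul_le_mul h3 hx2 (by positivity) (by positivity)]

/-- **Finite changes.**  What holds almost surely for all laws holds almost surely after all finite changes. -/
theorem ae_fin (hF : S_FIN) {P : (ℕ → Bool) → Prop} {δ : ℝ} (hδ : 0 ≤ δ)
    (h : ∀ (ν : Measure (ℕ → Bool)) [IsProbabilityMeasure ν], IL ν δ → ∀ᵐ ω ∂ν, P ω)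
    (ν : Measure (ℕ → Bool)) [IsProbabilityMeasure ν] (hν : IL ν δ) :
    ∀ᵐ ω ∂ν, ∀ ω' : ℕ → Bool, {k | ω' k ≠ ω k}.Finite → P ω' := by
  have h1 : ∀ᵐ ω ∂ν, ∀ F G : Finset ℕ, P (ov F G ω) := by
    rw [ae_all_iff]
    intro F
    rw [ae_all_iff]
    intro G
    have : IsProbabilityMeasure (ν.map (ov F G)) := (hF ν F G).1
    have h2 := h (ν.map (ov F G)) (IL_map hF hδ hν F G)
    exact ae_of_ae_map (measurable_ov F G).aemeasurable h2
  filter_upwards [h1] with ω hω ω' hω'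
  have h2 := hω hω'.toFinset (hω'.toFinset.filter fun k => ω' k = true)
  have h3 : ov hω'.toFinset (hω'.toFinset.filter fun k => ω' k = true) ω = ω' := by
    funext k
    unfold ov
    by_cases hk : k ∈ hω'.toFinset
    · rw [if_pos hk]
      have : (k ∈ hω'.toFinset.filter fun k => ω' k = true) ↔ ω' k = true := by
        rw [Finset.mem_filter]
        exact ⟨fun h => h.2, fun h => ⟨hk, h⟩⟩
      simp only [this]
      cases ω' k <;> simp
    · rw [if_neg hk]
      have : ¬ (ω' k ≠ ω k) := fun h4 => hk (by simpa using h4)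
      push Not at this
      exact this.symm
  rwa [h3] at h2

/-! ### relative entropy -/

/-- the words of length `n` have total probability one -/
theorem sum_words (ν : Measure (ℕ → Bool)) [IsProbabilityMeasure ν] (n : ℕ) :
    ∑ s : Fin n → Bool, ν.real {ω | ∀ k : Fin n, ω k = s k} = 1 := by
  have hm : Measurable fun ω : ℕ → Bool => fun k : Fin n => ω k :=
    measurable_pi_lambda _ fun k => measurable_pi_apply _
  have hset : ∀ s : Fin n → Bool, {ω : ℕ → Bool | ∀ k : Fin n, ω k = s k} =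
      (fun ω : ℕ → Bool => fun k : Fin n => ω k) ⁻¹' {s} := by
    intro s
    ext ω
    simp only [Set.mem_setOf_eq, Set.mem_preimage, Set.mem_singleton_iff]
    exact ⟨fun h => funext h, fun h k => congrFun h k⟩
  have h1 : ∑ s : Fin n → Bool, ν.real {ω | ∀ k : Fin n, ω k = s k} =
      ν.real (⋃ s ∈ (Finset.univ : Finset (Fin n → Bool)), {ω | ∀ k : Fin n, ω k = s k}) := by
    rw [measureReal_biUnion_finset]
    · intro s _ t _ hst
      rw [Function.onFun, Set.disjoint_left]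
      intro ω h1 h2
      exact hst (funext fun k => (h1 k).symm.trans (h2 k))
    · intro s _
      rw [hset]
      exact hm (measurableSet_singleton s)
  rw [h1]
  have h2 : (⋃ s ∈ (Finset.univ : Finset (Fin n → Bool)), {ω : ℕ → Bool | ∀ k : Fin n, ω k = s k}) =
      Set.univ := by
    ext ω
    simp only [Finset.mem_univ, Set.iUnion_true, Set.mem_iUnion, Set.mem_setOf_eq, Set.mem_univ,
      iff_true]
    exact ⟨fun k => ω k, fun k => rfl⟩
  rw [h2]
  simp

/-- the relative entropy as a sum over the words -/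
theorem D_eq_sum (ν : Measure (ℕ → Bool)) [IsProbabilityMeasure ν] (n : ℕ) :
    ∑ s : Fin n → Bool, ν.real {ω | ∀ k : Fin n, ω k = s k} *
      Real.log (2 ^ n * ν.real {ω | ∀ k : Fin n, ω k = s k}) = D ν n := by
  unfold D entropy
  have h1 : ∀ s : Fin n → Bool, ν.real {ω | ∀ k : Fin n, ω k = s k} *
      Real.log (2 ^ n * ν.real {ω | ∀ k : Fin n, ω k = s k}) =
      ν.real {ω | ∀ k : Fin n, ω k = s k} * (n * Real.log 2) -
        Real.negMulLog (ν.real {ω | ∀ k : Fin n, ω k = s k}) := by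
    intro s
    set q := ν.real {ω | ∀ k : Fin n, ω k = s k}
    unfold Real.negMulLog
    rcases eq_or_ne q 0 with hq | hq
    · rw [hq]
      simp
    · rw [Real.log_mul (by positivity) hq, Real.log_pow]
      ring
  rw [Finset.sum_congr rfl fun s _ => h1 s, Finset.sum_sub_distrib, ← Finset.sum_mul, sum_words,
    one_mul]

/-! ### power sums over primes -/

/-- `∑_{p ≤ x} p^(δ-1) ≤ x^δ/δ` for `0 < δ ≤ 1` -/
theorem sum_pr_le {δ : ℝ} (hδ0 : 0 < δ) (hδ : δ ≤ 1) (x : ℕ) :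
    ∑ k ∈ Finset.range (Nat.primeCounting x), (-(pr k : ℝ) ^ ((δ - 1) / 2)) ^ 2 ≤
      δ⁻¹ * (x : ℝ) ^ δ := by
  have h1 : ∀ k, (-(pr k : ℝ) ^ ((δ - 1) / 2)) ^ 2 = (pr k : ℝ) ^ (δ - 1) := by
    intro k
    have hp : (0 : ℝ) < pr k := pr_pos k
    rw [neg_sq, ← Real.rpow_natCast, ← Real.rpow_mul hp.le]
    congr 1
    push_cast
    ring
  simp only [h1]
  have hinj : Function.Injective pr := (Nat.nth_strictMono Nat.infinite_setOf_prime).injective
  have h2 : ∑ k ∈ Finset.range (Nat.primeCounting x), (pr k : ℝ) ^ (δ - 1) =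
      ∑ p ∈ (Finset.range (Nat.primeCounting x)).image pr, (p : ℝ) ^ (δ - 1) := by
    rw [Finset.sum_image fun a _ b _ h => hinj h]
  have h3 : (Finset.range (Nat.primeCounting x)).image pr ⊆ Finset.Icc 1 x := by
    intro p hp
    rw [Finset.mem_image] at hp
    obtain ⟨k, hk, rfl⟩ := hp
    rw [Finset.mem_range] at hk
    rw [Finset.mem_Icc]
    refine ⟨(pr_prime k).one_lt.le, ?_⟩
    unfold pr
    have h4 : Nat.nth Nat.Prime k < x + 1 := by
      have h5 : k < Nat.count Nat.Prime (x + 1) := by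
        have : Nat.primeCounting x = Nat.count Nat.Prime (x + 1) := rfl
        rwa [this] at hk
      exact Nat.nth_lt_of_lt_count h5
    omega
  have h4 : ∑ p ∈ (Finset.range (Nat.primeCounting x)).image pr, (p : ℝ) ^ (δ - 1) ≤
      ∑ n ∈ Finset.Icc 1 x, (n : ℝ) ^ (δ - 1) :=
    Finset.sum_le_sum_of_subset_of_nonneg h3 fun _ _ _ => by positivity
  refine (h2.le.trans h4).trans ?_
  clear h2 h3 h4
  induction x with
  | zero => simp [Real.zero_rpow hδ0.ne']
  | succ x ih =>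
    rw [Finset.sum_Icc_succ_top (by omega)]
    have h5 : ((x + 1 : ℕ) : ℝ) ^ (δ - 1) ≤ δ⁻¹ * (((x + 1 : ℕ) : ℝ) ^ δ - (x : ℝ) ^ δ) := by
      have hx1 : (0 : ℝ) < ((x + 1 : ℕ) : ℝ) := by positivity
      have h6 : (x : ℝ) ^ δ ≤ ((x + 1 : ℕ) : ℝ) ^ δ - δ * ((x + 1 : ℕ) : ℝ) ^ (δ - 1) := by
        have h7 : (x : ℝ) = ((x + 1 : ℕ) : ℝ) * (1 + (-1 / ((x + 1 : ℕ) : ℝ))) := by
          field_simp
          push_cast
          ring
        have h8 : (-1 : ℝ) ≤ -1 / ((x + 1 : ℕ) : ℝ) := by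
          rw [neg_div, neg_le_neg_iff, div_le_one hx1]
          push_cast
          linarith [Nat.cast_nonneg (α := ℝ) x]
        have h9 := rpow_one_add_le_one_add_mul_self h8 hδ0.le hδ
        have h10 : (x : ℝ) ^ δ = ((x + 1 : ℕ) : ℝ) ^ δ * (1 + (-1 / ((x + 1 : ℕ) : ℝ))) ^ δ := by
          conv_lhs => rw [h7]
          rw [Real.mul_rpow hx1.le (by linarith)]
        rw [h10]
        calc ((x + 1 : ℕ) : ℝ) ^ δ * (1 + (-1 / ((x + 1 : ℕ) : ℝ))) ^ δ
            ≤ ((x + 1 : ℕ) : ℝ) ^ δ * (1 + δ * (-1 / ((x + 1 : ℕ) : ℝ))) :=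
              mul_le_mul_of_nonneg_left h9 (by positivity)
          _ = ((x + 1 : ℕ) : ℝ) ^ δ - δ * ((x + 1 : ℕ) : ℝ) ^ (δ - 1) := by
              rw [Real.rpow_sub_one hx1.ne']
              ring
      rw [inv_mul_eq_div, le_div_iff₀ hδ0]
      linarith
    calc _ ≤ δ⁻¹ * (x : ℝ) ^ δ + δ⁻¹ * (((x + 1 : ℕ) : ℝ) ^ δ - (x : ℝ) ^ δ) := add_le_add ih h5
      _ = _ := by ring

end Pool.Agent.Q255.EP
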