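import Pool.Agent.Q255.EP.Stm2

/-!
# The entropy threshold of the diagonal twisted Elliott-Halberstam conjecture

`D(x) = O(x/(log x)^A)` for all `A` is enough, and for no fixed `A`.
-/

set_option autoImplicit false

namespace Pool.Agent.Q255.EP

open Filter Topology MeasureTheory Pool.Agent.Q255.IC Pool.Agent.Q255.IR
open scoped ENNReal

/-- `D(x) = O(x/(log x)^A)` for all `A` -/
def LogInfo (ν : Measure (ℕ → Bool)) : Prop :=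
  ∀ A : ℝ, 0 < A → ∃ C : ℝ, ∀ x : ℕ, 2 ≤ x → D ν (Nat.primeCounting x) ≤ C * x / Real.log x ^ A

/-- **The engine with log powers.**

Proof.  Fix `K`; `B` large.  `y = 2^(i₀)`, `i₀ = ⌊√(J+1)⌋`; a number is rough if all its primes are `> y`, smooth if all
are `≤ y`.  `n = a b`, `a` smooth, `b` rough, `f(n) = f(a) f(b)`.
(a) `a > 2^(J/2)`: trivially at most `∑ 2^J/a` over smooth `a > 2^(J/2)`, at most `2^J exp (-c √J) (J+1)^C` (Rankin with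
`ε' = 1/log y`).
(b) `a ≤ 2^(J/2)`, `b` not squarefree: at most `∑_{r > y} 2^J/(a r²) ≤ 2^J/(a y)` each.
(c) `a ≤ 2^(J/2)`, `b` squarefree: `T_a = Sq ω k X w'`, `w'(m) = w(a m) 1_rough(m)`, `X = 2^J`, `k = N J`, `N i = π(2^i)`.
Use `S_DET` (theorem `Pool.Agent.Q190.EP.det`; compare `Pool/Agent/Q190/EP/Eng1.lean` to `Eng3.lean`, the engine with powers)
with `T` = the functions `m ↦ w(a r m) 1_rough(r m)`, `w ∈ W_J` (at most `card W_J (2^J+1)^2 + 1`, they vanish beyond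
`2^J` and are closed under `m ↦ r m`), `L i = 0`, `κ' i = 1` for `i < i₀` (there all the terms are zero), and for `i ≥ i₀`
`L i = 2^(i+1) (i+1)^(-B) (J+1)^2`, `κ' i = 8 (i+1)^2 L i` (`∑ 4 L/κ' ≤ 1`).  `Good` fails with probability at most
`(D + log 2)/(L i/2) ≤ C (i+1)^(-2) (J+1)^(-2)` in the block `i` (`S_AZ`, `S_DPI`; the hypothesis with `A = B+2`), as
`L i/2` is at least the logarithm of the number of pairs (function, `k`) for large `J`.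
`κ(p) ≤ C p (log p)^(6-B)` for `p > y` as `J + 1 ≤ C (log p)^2`; so for rough squarefree `m > 1`
`∏_{p|m} κ(p) ≤ m (log y)^(-B/2)` for large `J`, and `T_a² ≤ 2 Nq ≤ 2 (1 + (2^J/a)² (log y)^(-B/2))`.
Sum over `a ≤ 2^(J/2)`: at most `C (2^(J/2) + 2^J (J+1) (J+1)^(-B/8))`.  Small `J` trivially. -/
def S_ENGL : Prop :=
  ∀ (ν : Measure (ℕ → Bool)) [IsProbabilityMeasure ν], LogInfo ν →
    ∀ (W : ℕ → Finset (ℕ → ℝ)) (A : ℝ), (∀ J, ∀ w ∈ W J, ∀ m, |w m| ≤ 1) →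
      (∀ J, ∀ w ∈ W J, ∀ m, 2 ^ J < m → w m = 0) →
      (∀ J, ((W J).card : ℝ) ≤ Real.exp (A * ((J : ℝ) + 1))) →
      ∀ᵐ ω ∂ν, ∀ K : ℕ, ∃ C : ℝ, ∀ J, ∀ w ∈ W J,
        |∑ m ∈ Finset.Icc 1 (2 ^ J), w m * cm ω m| ≤ C * 2 ^ J / ((J : ℝ) + 1) ^ K

/-- The diagonal conjecture for all levels `θ < 1`.

Proof: for a natural number `a` apply `S_ENGL` to `W_J` = the functions `m ↦ wt l N q m / 4` for `1 ≤ m ≤ R`, `0` otherwise,
`R ≤ 2^J`, `1 ≤ N, q ≤ 2^(J a)`.  For `q ≤ N^θ` and `R = (N-1)/q`, `2^(J-1) ≤ R < 2^J`, `a ≥ 2/(1-θ)`, `N` large: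
`|∑_{m ≤ R} wt l N q m f(m)| ≤ 8 C R/(log R)^K`, `log R ≥ (1-θ)/2 log N`.  Then as in `Pool.Agent.Q163.HC.Dg_le` (the sum over
`n ≡ N mod q` is, up to a sign, `log² (N+1)` times this one, or zero if `q` is not squarefree), `∑ 1/q`, `∑ 1/φ(q)` over
`q ≤ N` are at most powers of `log N`; `K` large. -/
def S_DIAGL : Prop :=
  ∀ (ν : Measure (ℕ → Bool)) [IsProbabilityMeasure ν], LogInfo ν →
    ∀ᵐ ω ∂ν, ∀ θ : ℝ, 0 < θ → θ < 1 → ∀ A : ℝ, 0 < A → ∃ C : ℝ, ∀ᶠ N : ℕ in atTop, ∀ l : Bool,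
      Pool.Agent.Q163.HC.Dg (Pool.Agent.Q163.HC.gf (cm ω) l) N θ ≤ C * (N * Real.log N ^ (-A))

/-- `1/2` at the multiples of `3` and `-1/4` at the other numbers -/
noncomputable def c3 (m : ℕ) : ℝ := if 3 ∣ m then 1 / 2 else -1 / 4

/-- The discrepancy of the modulus `3`, summed over `N`.

Proof: for large `N` prime to `3` the term `q = 3` of `Dg` is at most `Dg`: `|T_3(N) - T_1(N)/2| ≤ C N/(log N)^A`,
`T_3(N) = ∑_{m<N, 3∣m} Λ(N-m) g(m)`, `T_1(N) = ∑_{m<N} Λ(N-m) g(m)`.  Sum over `N ≤ Z`, `3 ∤ N`, and put `n = N - m`: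
`∑_m g(m) [1_{3∣m} ∑_{n ≤ Z-m, 3∤n} Λ(n) - (1/2) ∑_{n ≤ Z-m, 3 ∤ n+m} Λ(n)]`.  By the prime number theorem for the classes
`1, 2` modulo `3` with error `O(x/(log x)^A)` (Siegel-Walfisz, in the libraries: grep -ri siegelwalfisz) the bracket is
`c3(m) (Z - m) + O(Z/(log Z)^A)`, on average over `m`.  (`Σ_m (Z-m)/(log (Z-m+2))^A = O(Z²/(log Z)^A)`.) -/
def S_AGG : Prop :=
  ∀ (g : ℕ → ℝ) (θ A : ℝ), 0 < θ → 0 < A → (∀ m, |g m| ≤ 1) →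
    (∃ C : ℝ, ∀ᶠ N : ℕ in atTop, Pool.Agent.Q163.HC.Dg g N θ ≤ C * (N * Real.log N ^ (-A))) →
    ∃ C : ℝ, ∀ Z : ℕ, 2 ≤ Z →
      |∑ m ∈ Finset.Icc 1 Z, g m * c3 m * ((Z : ℝ) - m)| ≤ C * (Z : ℝ) ^ 2 / Real.log Z ^ A

/-- A finitely smooth Euler product.

Proof.  `d_p = (log (p+1))^(-(K-1/2))`, `f = cm ω`, `h(m) = μ(m) f(m) c3(m)`, `G(σ) = ∑ h(m) m^(-σ)`, `σ > 1`.  If
`H(Z) = ∑_{m ≤ Z} h(m) (Z-m) = O(Z²/(log Z)^(K+2))` then `G(σ) = σ(σ+1) ∫_1^∞ H(Z) Z^(-σ-2) dZ` and the derivatives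
`G^(j)`, `j ≤ K`, are bounded on `(1,2]` (or by summation by parts for `∑ h(m) (log m)^j m^(-σ)`).  `G(σ) = F(σ) R(σ)`,
`F(σ) = ∏_p (1 - f(p) p^(-σ))`, `R(σ) = -(f(3) 3^(-σ)/2 + 1/4)/(1 - f(3) 3^(-σ))`, `R` smooth and bounded away from `0` on
`[1,2]` (`1/6 < 1/4`).  `F` is bounded away from `0` and `∞` on `(1,2]`: `∑ f(p) p^(-σ)` is bounded, since `∑ d_p/p < ∞`
(`K ≥ 1`: `K - 1/2 > 0`; `p_k ≥ k log k`-type bound or `∑ 1/(p (log p)^(1/2))` by Chebyshev / dyadic blocks) and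
`∑ (f(p) + d_p) p^(-σ)` is bounded by summation by parts (hypothesis).  `F'/F = ∑ f(n) Λ(n) n^(-σ)`; by Leibniz and induction
on `j` the derivatives of `G'/G = F'/F + R'/R` of orders `j ≤ K-1` are bounded, so
`∑ f(n) Λ(n) (log n)^(K-1) n^(-σ)` is bounded, and so is `∑_p f(p) (log p)^K p^(-σ)` (higher prime powers converge).  But
`∑_p (f(p) + d_p) (log p)^K p^(-σ)` is bounded and `∑_p d_p (log p)^K p^(-σ) ≥ c ∑_p p^(-σ) → ∞` as `σ → 1`: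
contradiction.  (Mathlib: `LSeries_iteratedDeriv`, `LSeries.LSeries_mul`-type facts, `ArithmeticFunction.vonMangoldt` twists for
completely multiplicative functions; or do everything with real functions.) -/
def S_SOFT : Prop :=
  ∀ (K : ℕ) (ω : ℕ → Bool), 1 ≤ K →
    (∀ ε : ℝ, 0 < ε → ∃ C : ℝ, ∀ n : ℕ,
      |∑ k ∈ Finset.range n, (sg ω k - -(Real.log (pr k + 1)) ^ (-((K : ℝ) - 1 / 2)))| ≤
        C * ((n : ℝ) + 1) ^ (1 / 2 + ε)) →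
    ¬ ∃ C : ℝ, ∀ Z : ℕ, 2 ≤ Z →
      |∑ m ∈ Finset.Icc 1 Z, ((ArithmeticFunction.moebius m : ℤ) : ℝ) * cm ω m * c3 m * ((Z : ℝ) - m)| ≤
        C * (Z : ℝ) ^ 2 / Real.log Z ^ ((K : ℝ) + 2)

end Pool.Agent.Q255.EP
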