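import Pool.Agent.Q255.IR.Stm

/-!
# The price of square root cancellation: statements

`f = cm ω` is the completely multiplicative function with the values `f(p_k) = sg ω k ∈ {1, -1}`; the law `ν`
of `ω` is arbitrary, `D ν n` is the relative entropy of the law of the first `n` signs to fair coins.  If
`D ν π(x) ≤ x^(δ + o(1))` then almost surely `∑_{m ≤ M} w(m) f(m) = O(M^((1+δ)/2) 2^(ε J))` for ALL functions `w` of
sets `W_J` of at most `exp (A (J+1))` functions, `|w| ≤ 1`, `w = 0` beyond `2^J`.  The exponent is optimal.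
-/

set_option autoImplicit false

namespace Pool.Agent.Q255.EP

open Filter Topology MeasureTheory Pool.Agent.Q255.IC Pool.Agent.Q255.IR
open scoped ENNReal

/-- the completely multiplicative function with the values `sg ω k` at the primes `pr k`
(`pr (Nat.count Nat.Prime p) = p`) -/
noncomputable def cm (ω : ℕ → Bool) (n : ℕ) : ℝ :=
  n.factorization.prod fun p k => sg ω (Nat.count Nat.Prime p) ^ k

/-- the squarefree numbers `1 ≤ m ≤ X` all of whose prime factors are among the first `k` primes -/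
noncomputable def sm (k X : ℕ) : Finset ℕ :=
  (Finset.Icc 1 X).filter fun m => Squarefree m ∧ ∀ p ∈ m.primeFactors, p < pr k

/-- the sum of `w(m) f(m)` over these numbers -/
noncomputable def Sq (ω : ℕ → Bool) (k X : ℕ) (w : ℕ → ℝ) : ℝ := ∑ m ∈ sm k X, w m * cm ω m

/-- the sum of `w(m)² ∏_{p | m} κ(p)` over these numbers -/
noncomputable def Nq (κ : ℕ → ℝ) (k X : ℕ) (w : ℕ → ℝ) : ℝ :=
  ∑ m ∈ sm k X, w m ^ 2 * ∏ p ∈ m.primeFactors, κ (Nat.count Nat.Prime p)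

/-- `m ↦ w(p_k m)` -/
noncomputable def dil (k : ℕ) (w : ℕ → ℝ) : ℕ → ℝ := fun m => w (pr k * m)

/-! ## Recursion -/

/-- Recursions over the largest prime factor.

Proof: `sm (k+1) X` is the disjoint union of `sm k X` and of the `p_k m`, `m ∈ sm k X`, `p_k m ≤ X` (for `p_k m > X`
the term `w (p_k m)` is zero); `cm ω (p_k m) = sg ω k * cm ω m`; `primeFactors (p_k m) = insert p_k (primeFactors m)`. -/
def S_REC : Prop :=
  ∀ (ω : ℕ → Bool) (κ : ℕ → ℝ) (X : ℕ) (w : ℕ → ℝ), 1 ≤ X → (∀ m, X < m → w m = 0) →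
    Sq ω 0 X w = w 1 ∧ Nq κ 0 X w = w 1 ^ 2 ∧
    (∀ k, Sq ω (k + 1) X w = Sq ω k X w + sg ω k * Sq ω k X (dil k w)) ∧
    (∀ k, Nq κ (k + 1) X w = Nq κ k X w + κ k * Nq κ k X (dil k w)) ∧
    ∀ (k : ℕ) (ω' : ℕ → Bool), (∀ j < k, ω j = ω' j) → Sq ω k X w = Sq ω' k X w

/-- All numbers from the squarefree ones: `n = r² s`, `f(n) = f(s)`.

Proof: `Nat.sq_mul_squarefree` and uniqueness (or grep for a lemma: sums over `n = r^2 * s`); every squarefree `s ≤ X`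
belongs to `sm (π(X)) X`, as `pr (π(X))` is the first prime `> X`. -/
def S_FULL : Prop :=
  ∀ (ω : ℕ → Bool) (X : ℕ) (w : ℕ → ℝ), (∀ m, X < m → w m = 0) →
    ∑ n ∈ Finset.Icc 1 X, w n * cm ω n =
      ∑ r ∈ Finset.Icc 1 X, Sq ω (Nat.primeCounting X) X (fun s => w (r ^ 2 * s))

/-! ## Predictable coefficients -/

/-- Azuma's inequality for fair signs as a count of words.

Proof: for real `t`, `∑_s exp (t ∑_{a ≤ j < b} s_j c_j) ≤ 2^n exp (t² ∑ d_j²/2)` by induction on `b` (`c_j` only depends on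
the first `j` signs; average over the sign `j`: `cosh x ≤ exp (x²/2)`); with `V = ∑ d_j²`, `t = √(2L/V)`, Markov for
both signs.  If `V = 0` the sum is `0` and the set is empty.  `W` is the set of the words `s` such that some `ω`
which extends `s` is in the set (it only depends on the first `b ≤ n` signs). -/
def S_AZ : Prop :=
  ∀ (n a b : ℕ) (c : ℕ → (ℕ → Bool) → ℝ) (d : ℕ → ℝ) (L : ℝ), b ≤ n → 0 ≤ L →
    (∀ j ω, |c j ω| ≤ d j) →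
    (∀ (j : ℕ) (ω ω' : ℕ → Bool), (∀ i < j, ω i = ω' i) → c j ω = c j ω') →
    ∃ W : Finset (Fin n → Bool), (W.card : ℝ) ≤ 2 * 2 ^ n * Real.exp (-L) ∧
      {ω : ℕ → Bool | √(2 * L * ∑ j ∈ Finset.Ico a b, d j ^ 2) <
        |∑ j ∈ Finset.Ico a b, sg ω j * c j ω|} ⊆ cyl W

/-! ## The deterministic part -/

/-- `c` if `|c| ≤ d`, else `0` -/
noncomputable def trunc (d c : ℝ) : ℝ := if |c| ≤ d then c else 0

/-- For all `w ∈ T`, all blocks of indices `[N i, N (i+1))`, `i < J`, and all `k` of the block the truncated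
predictable sums are at most the bound of `S_AZ`. -/
def Good (ω : ℕ → Bool) (X : ℕ) (κ : ℕ → ℝ) (N : ℕ → ℕ) (L : ℕ → ℝ) (J : ℕ) (T : Set (ℕ → ℝ)) : Prop :=
  ∀ w ∈ T, ∀ i < J, ∀ k, N i ≤ k → k ≤ N (i + 1) →
    |∑ j ∈ Finset.Ico (N i) k, sg ω j * trunc (√(2 * Nq κ j X (dil j w))) (Sq ω j X (dil j w))| ≤
      √(2 * L i * ∑ j ∈ Finset.Ico (N i) k, √(2 * Nq κ j X (dil j w)) ^ 2)

/-- If `∑ 4 L_i/κ'_i ≤ 1` then in the good event `|Sq w|² ≤ 2 Nq w` for all `w ∈ T`.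

Proof: strong induction on `k` for all `w ∈ T`.  By `S_REC`, `Sq ω k X w = w 1 + ∑_{j<k} sg ω j Sq ω j X (dil j w)`; by
induction `|Sq ω j X (dil j w)| ≤ √(2 Nq)` (`dil j w ∈ T`), so nothing is truncated; split into blocks:
`|Sq| ≤ |w 1| + ∑_i √(4 L_i/κ'_i · γ_i)`, `γ_i = ∑_{j in block i, j<k} κ_j Nq κ j X (dil j w)`; Cauchy-Schwarz
`(∑_i √(x_i γ_i))² ≤ (∑ x_i) (∑ γ_i) ≤ ∑ γ_i`; so `Sq² ≤ 2 w(1)² + 2 ∑ γ_i = 2 Nq κ k X w` (again `S_REC`). -/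
def S_DET : Prop :=
  ∀ (ω : ℕ → Bool) (X : ℕ) (κ κ' : ℕ → ℝ) (N : ℕ → ℕ) (L : ℕ → ℝ) (J : ℕ) (T : Set (ℕ → ℝ)), 1 ≤ X →
    N 0 = 0 → Monotone N → (∀ i, 0 < κ' i) → (∀ i, 0 ≤ L i) →
    (∀ i k, N i ≤ k → k < N (i + 1) → κ k = κ' i) → (∀ k, 0 ≤ κ k) →
    ∑ i ∈ Finset.range J, 4 * L i / κ' i ≤ 1 →
    (∀ w ∈ T, ∀ r : ℕ, 1 ≤ r → (fun m => w (r * m)) ∈ T) → (∀ w ∈ T, ∀ m, X < m → w m = 0) →
    Good ω X κ N L J T →
      ∀ w ∈ T, ∀ k, k ≤ N J → Sq ω k X w ^ 2 ≤ 2 * Nq κ k X w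

/-! ## A product -/

/-- `∑_{m ≤ M squarefree} ∏_{p | m} κ(p) ≤ C 2^(εJ) M^(1+δ+4ε)` for `κ(p) ≤ C' (J+1)^(1+ε) p^(δ+2ε)`.

Proof: Rankin, `σ = 1+δ+4ε`: the sum is at most `M^σ ∏_{p ≤ M} (1 + κ(p) p^(-σ)) ≤ M^σ ∏_p (1 + B p^(-(1+2ε)))`,
`B = C' (J+1)^(1+ε)`; with `η = 1/(1 + 3ε/2)`, `1 + x ≤ exp (x^η/η)` for `x ≥ 0`
(`log (1+x) ≤ x^η/η`: for `x ≤ 1`, `log (1+x) ≤ x ≤ x^η`; for `x ≥ 1`, `log (1+x) = (1/η) log (1+x)^η ≤
(1/η) log (1 + x^η) ≤ x^η/η`, `(1+x)^η ≤ 1 + x^η`), the product is at most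
`exp (η⁻¹ B^η ∑_n n^(-(1+2ε)η))`, `(1+2ε)η > 1`, and `B^η ≤ C (J+1)^((1+ε)η)`, `(1+ε)η < 1`, so the exponent is at most
`C + ε J log 2`.  (`Nat.primeFactors` product over squarefree numbers: `Finset.prod_one_add` over the primes `≤ M`.) -/
def S_PRD : Prop :=
  ∀ δ ε C' : ℝ, 0 ≤ δ → 0 < ε → ε ≤ 1 → 0 ≤ C' → ∃ C : ℝ, 0 ≤ C ∧
    ∀ (J : ℕ) (κ : ℕ → ℝ),
      (∀ k, 0 ≤ κ k ∧ κ k ≤ C' * ((J : ℝ) + 1) ^ (1 + ε) * (pr k : ℝ) ^ (δ + 2 * ε)) →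
      ∀ k M : ℕ, M ≤ 2 ^ J →
        ∑ m ∈ sm k M, ∏ p ∈ m.primeFactors, κ (Nat.count Nat.Prime p) ≤
          C * (2 : ℝ) ^ (ε * J) * (M : ℝ) ^ (1 + δ + 4 * ε)

/-! ## The main theorem -/

/-- **Square root cancellation for all laws of small information.**

Proof.  `ε` small: prove it with `C 2^(c ε J) M^((1+δ)/2)`, `c = 10`, say (`ε ≤ 1`).  Let `X = 2^J`, `N i = π(2^i)` (`N 0 = 0`),
`T = {m ↦ w(r m) : w ∈ W_J, r ≥ 1}` (finite, at most `card W_J (2^J+1)` functions: for `r > 2^J` all are equal),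
`L i = 2 · 2^((i+1)(δ+ε)) (J+1)^(1+ε)`, `κ' i = C_ε 2^((i+1) ε) L i` with `∑ 4/(C_ε 2^((i+1)ε)) ≤ 1`; so
`κ(p) ≤ C' (J+1)^(1+ε) p^(δ+2ε)` (`2^i < p ≤ 2^(i+1)`).
Probability that `Good` fails: for every `i < J`, `S_AZ` with `n = N (i+1)`, `a = N i`, `b = k`, for all `w ∈ T`, `k ∈ [N i, N (i+1)]`
(the coefficients are `trunc (…) (Sq ω j X (dil j w))`, predictable by `S_REC`): the union `U_i` of the words has
`card U_i ≤ card T (2^J + 1) · 2 · 2^n exp (-L i)`, and `log (card T (2^J+1) 2) ≤ (A + 4)(J+1) ≤ L i/2` for `J ≥ J₀`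
(`(J+1)^ε ≥ A + 4`).  `S_DPI`: `ν(cyl U_i) · L i/2 ≤ D ν n + log 2 ≤ C₁ 2^((i+1)(δ+ε/2))` (`n = π(2^(i+1))`; `C₁` depends on
`ν`, from the hypothesis for large `x`), so `ν(cyl U_i) ≤ C₁ 2^(-(i+1) ε/2) (J+1)^(-(1+ε))`: summable over `i` and `J`.
Borel-Cantelli: almost surely `Good` for all `J ≥ J₁(ω)`.
Then by `S_DET` for all `w ∈ T`: `Sq² ≤ 2 Nq`; for `w ∈ W_J` with `w = 0` beyond `M` and `r ≥ 1` the function
`w_r(s) = w(r² s)` is in `T`, and zero for `s > M/r²`, so `Nq κ k X w_r ≤ ∑_{m ∈ sm k (M/r²)} ∏ κ ≤ C 2^(εJ) (M/r²)^(1+δ+4ε)`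
(`S_PRD`; the sum over `sm k X` is over `m ≤ M/r²` only), `M^(4ε) ≤ 2^(4εJ)`.  By `S_FULL` (with `X = 2^J`; terms beyond `M`
vanish) the sum is at most `∑_r √(…) ≤ C 2^(3 ε J) M^((1+δ)/2) ∑ r^(-1-4ε)`.
For the finitely many `J < max (J₀, J₁)` the sum is at most `M ≤ 2^J`, and `0` if `M = 0`.  All `ε = 1/(j+1)` at once. -/
def S_ENG : Prop :=
  ∀ (ν : Measure (ℕ → Bool)) [IsProbabilityMeasure ν] (δ : ℝ), 0 ≤ δ →
    (∀ ε : ℝ, 0 < ε → ∀ᶠ x : ℕ in atTop, D ν (Nat.primeCounting x) ≤ (x : ℝ) ^ (δ + ε)) →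
    ∀ (W : ℕ → Finset (ℕ → ℝ)) (A : ℝ), (∀ J, ∀ w ∈ W J, ∀ m, |w m| ≤ 1) →
      (∀ J, ∀ w ∈ W J, ∀ m, 2 ^ J < m → w m = 0) →
      (∀ J, ((W J).card : ℝ) ≤ Real.exp (A * ((J : ℝ) + 1))) →
      ∀ᵐ ω ∂ν, ∀ ε : ℝ, 0 < ε → ∃ C : ℝ, ∀ J, ∀ w ∈ W J, ∀ M : ℕ, (∀ m, M < m → w m = 0) →
        |∑ m ∈ Finset.Icc 1 M, w m * cm ω m| ≤ C * (2 : ℝ) ^ (ε * J) * (M : ℝ) ^ ((1 + δ) / 2)

/-! ## Exponential sums -/

/-- `e(x) = exp(2 π i x)` -/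
noncomputable def ee (x : ℝ) : ℂ := Complex.exp ((2 * Real.pi * x : ℝ) * Complex.I)

/-- All polynomial phases of degree `≤ d` at once, for given real weights `|a| ≤ 1`.

Proof: `S_ENG` for every `d` with `W_J` = the functions `a(m) cos (2πF(m))`, `a(m) sin (2πF(m))` for `m ≤ R`, `0` for `m > R`
(and `m = 0`), where `R ≤ 2^J` and `F = ∑_{k ≤ d} (b_k/Q) X^k`, `0 ≤ b_k < Q = 2^(J(d+1))` integers: at most
`2 (2^J+1) Q^(d+1) ≤ exp (A (J+1))` functions.  For real `F` and `R ≥ 1` take `J` with `2^(J-1) < R ≤ 2^J` (`J = 0` if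
`R = 1`); reduce the coefficients modulo `1` (`e(F(n))` does not change) and round them down to multiples of `1/Q`:
the phase changes by at most `(d+1) R^d/Q ≤ (d+1) 2^(-J)`, the sum by at most `2π(d+1)`. -/
def S_POLY : Prop :=
  ∀ (ν : Measure (ℕ → Bool)) [IsProbabilityMeasure ν] (δ : ℝ), 0 ≤ δ →
    (∀ ε : ℝ, 0 < ε → ∀ᶠ x : ℕ in atTop, D ν (Nat.primeCounting x) ≤ (x : ℝ) ^ (δ + ε)) →
    ∀ a : ℕ → ℝ, (∀ n, |a n| ≤ 1) →
      ∀ᵐ ω ∂ν, ∀ (d : ℕ) (ε : ℝ), 0 < ε → ∃ C : ℝ, ∀ (R : ℕ) (F : Polynomial ℝ), 1 ≤ R →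
        F.natDegree ≤ d →
          ‖∑ n ∈ Finset.Icc 1 R, ((a n * cm ω n : ℝ) : ℂ) * ee (F.eval (n : ℝ))‖ ≤
            C * (R : ℝ) ^ ((1 + δ) / 2 + ε)

/-! ## Optimality -/

/-- Independent signs with means `d_k`, `|d_k| ≤ 1`: the information is at most `∑ d_k²` and the deviations of
the partial sums are `O(n^(1/2+ε))`.

Proof: `Measure.infinitePi` of `(1+d_k)/2 δ_true + (1-d_k)/2 δ_false`; the relative entropy of one factor is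
`((1+d) log (1+d) + (1-d) log (1-d))/2 ≤ d²` (`log (1+d) ≤ d`, `log (1-d) ≤ -d`), entropies add (see
Pool/Agent/Q190/IR/Tilt.lean, which has exactly this structure, and Pool/Agent/Q26/IC/Iid.lean); Hoeffding
and Borel-Cantelli for the deviations (`ε = 1/(j+1)`). -/
def S_LAW : Prop :=
  ∀ d : ℕ → ℝ, (∀ k, |d k| ≤ 1) → ∃ ν : Measure (ℕ → Bool), IsProbabilityMeasure ν ∧
    (∀ n, D ν n ≤ ∑ k ∈ Finset.range n, d k ^ 2) ∧
    ∀ᵐ ω ∂ν, ∀ ε : ℝ, 0 < ε → ∃ C : ℝ, ∀ n : ℕ,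
      |∑ k ∈ Finset.range n, (sg ω k - d k)| ≤ C * ((n : ℝ) + 1) ^ (1 / 2 + ε)

/-- A pole.  If `∑_{k<n} (f(p_k) + p_k^(β-1)) = O(n^(1/2+ε))` for all `ε > 0`, `1/2 < β < 1`, then `∑_{n ≤ R} μ(n) f(n)` is not
`O(R^a)` for any `a < β`.

Proof: `S = {p | f(p) = -1}`, in the notation of `Pool.Agent.Q120.FZ.Stm`: `lam S n = f(n) λ(n)`, `sg S p = -f(p)`, the
hypothesis of `Pool.Agent.Q146.FZ.t_POLE` (`J_POLE`, with `J_LGP` = `Pool.Agent.Q208.FZ.t_LGP`, `J_EUL` =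
`Pool.Agent.Q208.FZ.t_EUL`, `J_AN` = `Pool.Agent.Q247.RZ.t_AN`) holds (sum over a dyadic block up to `x` = difference of two
initial sums), so `F = LSeries (lam S)` has no analytic continuation to `Re s > a`, where we may assume
`a > 1/2`.  But `μ(n) f(n) = μ(n)² lam S n`, and `F(s) = ζ(2s) G(s)`, `G = LSeries (μ² lam S)`, for `Re s > 1` (`n = r² s`,
`lam S (r² s) = lam S s`); if the partial sums are `O(R^a)`, `G` continues analytically to `Re s > a` (Abel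
summation, or `Pool.Agent.Q247.RZ.t_AN`), and `ζ(2s)` is analytic for `Re s > 1/2`: contradiction. -/
def S_LOW : Prop :=
  ∀ (ω : ℕ → Bool) (β : ℝ), 1 / 2 < β → β < 1 →
    (∀ ε : ℝ, 0 < ε → ∃ C : ℝ, ∀ n : ℕ,
      |∑ k ∈ Finset.range n, (sg ω k + (pr k : ℝ) ^ (β - 1))| ≤ C * ((n : ℝ) + 1) ^ (1 / 2 + ε)) →
    ∀ a : ℝ, a < β → ¬ ∃ C : ℝ, ∀ R : ℕ, 1 ≤ R →
      |∑ n ∈ Finset.Icc 1 R, ((ArithmeticFunction.moebius n : ℤ) : ℝ) * cm ω n| ≤ C * (R : ℝ) ^ a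

end Pool.Agent.Q255.EP
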