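import Pool.Agent.Q255.EP.Fin
import Pool.Agent.Q255.EP.Stm3

/-!
# Finite changes for the class `D(x) = O(x/(log x)^A)` for all `A`
-/

set_option autoImplicit false

namespace Pool.Agent.Q255.EP

open Filter Topology MeasureTheory Pool.Agent.Q255.IC Pool.Agent.Q255.IR

/-- finite changes, any class of laws which is closed under them -/
theorem ae_fin_of (hF : S_FIN) {P : (ℕ → Bool) → Prop} {Cl : Measure (ℕ → Bool) → Prop}
    (hCl : ∀ (ν : Measure (ℕ → Bool)) [IsProbabilityMeasure ν], Cl ν → ∀ F G : Finset ℕ,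
      Cl (ν.map (ov F G)))
    (h : ∀ (ν : Measure (ℕ → Bool)) [IsProbabilityMeasure ν], Cl ν → ∀ᵐ ω ∂ν, P ω)
    (ν : Measure (ℕ → Bool)) [IsProbabilityMeasure ν] (hν : Cl ν) :
    ∀ᵐ ω ∂ν, ∀ ω' : ℕ → Bool, {k | ω' k ≠ ω k}.Finite → P ω' := by
  have h1 : ∀ᵐ ω ∂ν, ∀ F G : Finset ℕ, P (ov F G ω) := by
    rw [ae_all_iff]
    intro F
    rw [ae_all_iff]
    intro G
    have : IsProbabilityMeasure (ν.map (ov F G)) := (hF ν F G).1
    exact ae_of_ae_map (measurable_ov F G).aemeasurable (h (ν.map (ov F G)) (hCl ν hν F G))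
  filter_upwards [h1] with ω hω ω' hω'
  have h2 := hω hω'.toFinset (hω'.toFinset.filter fun k => ω' k = true)
  have h3 : ov hω'.toFinset (hω'.toFinset.filter fun k => ω' k = true) ω = ω' := by
    funext k
    unfold ov
    by_cases hk : k ∈ hω'.toFinset
    · rw [if_pos hk]
      have : (k ∈ hω'.toFinset.filter fun k => ω' k = true) ↔ ω' k = true := by
        rw [Finset.mem_filter]
        exact ⟨fun h => h.2, fun h => ⟨hk, h⟩⟩
      simp only [this]
      cases ω' k <;> simp
    · rw [if_neg hk]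
      have : ¬ (ω' k ≠ ω k) := fun h4 => hk (by simpa using h4)
      push Not at this
      exact this.symm
  rwa [h3] at h2

/-- `x/(log x)^A` is bounded below -/
theorem one_le_ratio (A : ℝ) (hA : 0 < A) : ∃ C : ℝ, 0 < C ∧ ∀ x : ℕ, 2 ≤ x →
    1 ≤ C * x / Real.log x ^ A := by
  have h1 : ∀ᶠ x : ℕ in atTop, ‖Real.log (x : ℝ) ^ A‖ ≤ 1 * ‖(x : ℝ) ^ (1 : ℝ)‖ :=
    tendsto_natCast_atTop_atTop.eventually
      ((isLittleO_log_rpow_rpow_atTop A one_pos).bound zero_lt_one)
  obtain ⟨x0, hx0⟩ := eventually_atTop.1 h1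
  have hlog0 : 0 ≤ Real.log (x0 + 1 : ℝ) := Real.log_nonneg (by
    linarith [Nat.cast_nonneg (α := ℝ) x0])
  have hpow0 : 0 ≤ Real.log (x0 + 1 : ℝ) ^ A := Real.rpow_nonneg hlog0 A
  refine ⟨1 + Real.log (x0 + 1) ^ A, by linarith, fun x hx => ?_⟩
  have hx2 : (2 : ℝ) ≤ x := by exact_mod_cast hx
  have hlog : 0 < Real.log x := Real.log_pos (by linarith)
  have hpow : 0 < Real.log x ^ A := Real.rpow_pos_of_pos hlog A
  rw [le_div_iff₀ hpow, one_mul]
  rcases le_or_gt x0 x with h | h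
  · have h2 := hx0 x h
    rw [Real.norm_of_nonneg hpow.le, Real.rpow_one, Real.norm_of_nonneg (by linarith), one_mul] at h2
    have h3 : 0 ≤ Real.log (x0 + 1 : ℝ) ^ A := Real.rpow_nonneg hlog0 A
    nlinarith
  · have h2 : Real.log x ^ A ≤ Real.log (x0 + 1) ^ A := by
      refine Real.rpow_le_rpow hlog.le (Real.log_le_log (by linarith) ?_) hA.le
      have : (x : ℝ) ≤ x0 := by exact_mod_cast h.le
      linarith
    have h3 : 0 ≤ Real.log (x0 + 1 : ℝ) ^ A := Real.rpow_nonneg hlog0 A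
    nlinarith

theorem LogInfo_map (hF : S_FIN) (ν : Measure (ℕ → Bool)) [IsProbabilityMeasure ν] (h : LogInfo ν)
    (F G : Finset ℕ) : LogInfo (ν.map (ov F G)) := by
  intro A hA
  obtain ⟨C, hC⟩ := h A hA
  obtain ⟨C', hC'0, hC'⟩ := one_le_ratio A hA
  refine ⟨C + F.card * Real.log 2 * C', fun x hx => ?_⟩
  refine ((hF ν F G).2 _).trans ?_
  have h1 := hC x hx
  have h2 := hC' x hx
  have h3 : 0 ≤ (F.card : ℝ) * Real.log 2 := by positivity
  calc _ ≤ C * x / Real.log x ^ A + F.card * Real.log 2 * (C' * x / Real.log x ^ A) := by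
        nlinarith [mul_le_mul_of_nonneg_left h2 h3]
    _ = _ := by ring

theorem ae_fin_log (hF : S_FIN) {P : (ℕ → Bool) → Prop}
    (h : ∀ (ν : Measure (ℕ → Bool)) [IsProbabilityMeasure ν], LogInfo ν → ∀ᵐ ω ∂ν, P ω)
    (ν : Measure (ℕ → Bool)) [IsProbabilityMeasure ν] (hν : LogInfo ν) :
    ∀ᵐ ω ∂ν, ∀ ω' : ℕ → Bool, {k | ω' k ≠ ω k}.Finite → P ω' :=
  ae_fin_of hF (fun ν' _ h' F G => LogInfo_map hF ν' h' F G) h ν hν

/-- finite changes do not change the deviations of the partial sums -/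
theorem dev_fin {ω ω' : ℕ → Bool} (hfin : {k | ω' k ≠ ω k}.Finite) {g : ℕ → ℝ}
    (h : ∀ ε : ℝ, 0 < ε → ∃ C : ℝ, ∀ n : ℕ,
      |∑ k ∈ Finset.range n, (sg ω k - g k)| ≤ C * ((n : ℝ) + 1) ^ (1 / 2 + ε)) :
    ∀ ε : ℝ, 0 < ε → ∃ C : ℝ, ∀ n : ℕ,
      |∑ k ∈ Finset.range n, (sg ω' k - g k)| ≤ C * ((n : ℝ) + 1) ^ (1 / 2 + ε) := by
  intro ε hε
  obtain ⟨C, hC⟩ := h ε hε
  refine ⟨C + 2 * hfin.toFinset.card, fun n => ?_⟩
  have h1 : ∑ k ∈ Finset.range n, (sg ω' k - g k) =
      ∑ k ∈ Finset.range n, (sg ω k - g k) + ∑ k ∈ Finset.range n, (sg ω' k - sg ω k) := by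
    rw [← Finset.sum_add_distrib]
    exact Finset.sum_congr rfl fun k _ => by ring
  have h2 : |∑ k ∈ Finset.range n, (sg ω' k - sg ω k)| ≤ 2 * hfin.toFinset.card := by
    have h3 : ∑ k ∈ Finset.range n, (sg ω' k - sg ω k) =
        ∑ k ∈ (Finset.range n).filter (fun k => k ∈ hfin.toFinset), (sg ω' k - sg ω k) := by
      rw [Finset.sum_filter]
      refine Finset.sum_congr rfl fun k _ => ?_
      by_cases hk : k ∈ hfin.toFinset
      · rw [if_pos hk]
      · rw [if_neg hk]
        have : ω' k = ω k := by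
          by_contra h4
          exact hk (by simpa using h4)
        unfold sg
        rw [this, sub_self]
    rw [h3]
    refine (Finset.abs_sum_le_sum_abs _ _).trans ?_
    refine (Finset.sum_le_sum (g := fun _ => (2 : ℝ)) fun k _ => ?_).trans ?_
    · have a1 := abs_sg ω k
      have a2 := abs_sg ω' k
      have a3 := abs_sub (sg ω' k) (sg ω k)
      linarith
    · rw [Finset.sum_const, nsmul_eq_mul, mul_comm]
      have : ((Finset.range n).filter (fun k => k ∈ hfin.toFinset)).card ≤ hfin.toFinset.card :=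
        Finset.card_le_card fun k hk => (Finset.mem_filter.1 hk).2
      have h5 : (((Finset.range n).filter (fun k => k ∈ hfin.toFinset)).card : ℝ) ≤
          hfin.toFinset.card := by exact_mod_cast this
      linarith
  rw [h1]
  have h3 : (1 : ℝ) ≤ ((n : ℝ) + 1) ^ (1 / 2 + ε) :=
    Real.one_le_rpow (by linarith [Nat.cast_nonneg (α := ℝ) n]) (by positivity)
  have h4 : (0 : ℝ) ≤ 2 * hfin.toFinset.card := by positivity
  calc _ ≤ _ := abs_add_le _ _
    _ ≤ C * ((n : ℝ) + 1) ^ (1 / 2 + ε) + 2 * hfin.toFinset.card := add_le_add (hC n) h2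
    _ ≤ C * ((n : ℝ) + 1) ^ (1 / 2 + ε) + 2 * hfin.toFinset.card * ((n : ℝ) + 1) ^ (1 / 2 + ε) := by
        have h5 := mul_le_mul_of_nonneg_left h3 h4
        linarith
    _ = _ := by ring

/-! ### the biased law -/

theorem dK_le (K : ℕ) (hK : 1 ≤ K) (k : ℕ) :
    |(-(Real.log (pr k + 1)) ^ (-((K : ℝ) - 1 / 2)))| ≤ 1 := by
  have h1 : (3 : ℝ) ≤ (pr k : ℝ) + 1 := by
    have : 2 ≤ pr k := (pr_prime k).two_le
    have : (2 : ℝ) ≤ pr k := by exact_mod_cast this
    linarith
  have h2 : (1 : ℝ) ≤ Real.log ((pr k : ℝ) + 1) := by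
    rw [Real.le_log_iff_exp_le (by linarith)]
    have := Real.exp_one_lt_d9
    linarith
  have hK' : (1 : ℝ) ≤ K := by exact_mod_cast hK
  rw [abs_neg, abs_of_nonneg (by positivity)]
  exact Real.rpow_le_one_of_one_le_of_nonpos h2 (by linarith)

/-- `∑_{p ≤ x} (log (p+1))^(-(2K-1)) = O(x/(log x)^(2K-1))` -/
theorem sum_dK_le (K : ℕ) (hK : 1 ≤ K) : ∃ C : ℝ, ∀ x : ℕ, 2 ≤ x →
    ∑ k ∈ Finset.range (Nat.primeCounting x), (-(Real.log (pr k + 1)) ^ (-((K : ℝ) - 1 / 2))) ^ 2 ≤
      C * x / Real.log x ^ (2 * (K : ℝ) - 1) := by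
  have hK' : (1 : ℝ) ≤ K := by exact_mod_cast hK
  set B : ℝ := 2 * (K : ℝ) - 1 with hB
  have hB0 : 0 < B := by linarith
  have h1 : ∀ᶠ x : ℕ in atTop, ‖Real.log (x : ℝ) ^ B‖ ≤ 1 * ‖(x : ℝ) ^ (1 / 2 : ℝ)‖ :=
    tendsto_natCast_atTop_atTop.eventually
      ((isLittleO_log_rpow_rpow_atTop B (by norm_num)).bound zero_lt_one)
  obtain ⟨x0, hx0⟩ := eventually_atTop.1 h1
  have hterm : ∀ k, (-(Real.log (pr k + 1)) ^ (-((K : ℝ) - 1 / 2))) ^ 2 =
      (Real.log ((pr k : ℝ) + 1)) ^ (-B) := by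
    intro k
    have h3 : (0 : ℝ) ≤ Real.log ((pr k : ℝ) + 1) := Real.log_nonneg (by
      linarith [(pr_pos k)])
    rw [neg_sq, ← Real.rpow_natCast, ← Real.rpow_mul h3]
    congr 1
    rw [hB]
    push_cast
    ring
  have hle1 : ∀ k, (Real.log ((pr k : ℝ) + 1)) ^ (-B) ≤ 1 := by
    intro k
    have h1 : (3 : ℝ) ≤ (pr k : ℝ) + 1 := by
      have : 2 ≤ pr k := (pr_prime k).two_le
      have : (2 : ℝ) ≤ pr k := by exact_mod_cast this
      linarith
    have h2 : (1 : ℝ) ≤ Real.log ((pr k : ℝ) + 1) := by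
      rw [Real.le_log_iff_exp_le (by linarith)]
      have := Real.exp_one_lt_d9
      linarith
    exact Real.rpow_le_one_of_one_le_of_nonpos h2 (by linarith)
  have hinj : Function.Injective pr := (Nat.nth_strictMono Nat.infinite_setOf_prime).injective
  have hmem : ∀ x k : ℕ, k ∈ Finset.range (Nat.primeCounting x) → pr k ≤ x := by
    intro x k hk
    rw [Finset.mem_range] at hk
    have h4 : Nat.nth Nat.Prime k < x + 1 := by
      have h5 : k < Nat.count Nat.Prime (x + 1) := by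
        have : Nat.primeCounting x = Nat.count Nat.Prime (x + 1) := rfl
        rwa [this] at hk
      exact Nat.nth_lt_of_lt_count h5
    unfold pr
    omega
  refine ⟨(x0 : ℝ) * (1 + Real.log (x0 + 1) ^ B) + 1 + 2 ^ B + 1, fun x hx => ?_⟩
  have hx2 : (2 : ℝ) ≤ x := by exact_mod_cast hx
  have hlog : 0 < Real.log x := Real.log_pos (by linarith)
  have hpow : 0 < Real.log x ^ B := Real.rpow_pos_of_pos hlog B
  have hlog0 : 0 ≤ Real.log (x0 + 1 : ℝ) := Real.log_nonneg (by
    linarith [Nat.cast_nonneg (α := ℝ) x0])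
  have hpow0 : 0 ≤ Real.log (x0 + 1 : ℝ) ^ B := Real.rpow_nonneg hlog0 B
  have h2B : (0 : ℝ) < 2 ^ B := by positivity
  simp only [hterm]
  -- trivial bound by x
  have htriv : ∑ k ∈ Finset.range (Nat.primeCounting x), (Real.log ((pr k : ℝ) + 1)) ^ (-B) ≤ x := by
    refine (Finset.sum_le_sum fun k _ => hle1 k).trans ?_
    rw [Finset.sum_const, nsmul_eq_mul, mul_one, Finset.card_range]
    have : Nat.primeCounting x ≤ x := by
      have h6 : ((Finset.range (Nat.primeCounting x)).image pr) ⊆ Finset.Icc 1 x := by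
        intro p hp
        rw [Finset.mem_image] at hp
        obtain ⟨k, hk, rfl⟩ := hp
        rw [Finset.mem_Icc]
        exact ⟨(pr_prime k).one_lt.le, hmem x k hk⟩
      have h7 := Finset.card_le_card h6
      rw [Finset.card_image_of_injective _ hinj, Finset.card_range, Nat.card_Icc] at h7
      omega
    exact_mod_cast this
  rcases le_or_gt x0 x with h | h
  · -- large x
    have h2 := hx0 x h
    rw [Real.norm_of_nonneg hpow.le, Real.norm_of_nonneg (by positivity), one_mul,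
      ← Real.sqrt_eq_rpow] at h2
    rw [le_div_iff₀ hpow]
    -- split at sqrt x
    have hsplit : ∑ k ∈ Finset.range (Nat.primeCounting x), (Real.log ((pr k : ℝ) + 1)) ^ (-B) ≤
        Real.sqrt x + x * (2 ^ B / Real.log x ^ B) := by
      rw [← Finset.sum_filter_add_sum_filter_not _ (fun k => (pr k : ℝ) ≤ Real.sqrt x)]
      refine add_le_add ?_ ?_
      · refine (Finset.sum_le_sum fun k _ => hle1 k).trans ?_
        rw [Finset.sum_const, nsmul_eq_mul, mul_one]
        have h6 : (((Finset.range (Nat.primeCounting x)).filter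
            (fun k => (pr k : ℝ) ≤ Real.sqrt x)).image pr) ⊆ Finset.Icc 1 ⌊Real.sqrt x⌋₊ := by
          intro p hp
          rw [Finset.mem_image] at hp
          obtain ⟨k, hk, rfl⟩ := hp
          rw [Finset.mem_filter] at hk
          rw [Finset.mem_Icc]
          exact ⟨(pr_prime k).one_lt.le, Nat.le_floor hk.2⟩
        have h7 := Finset.card_le_card h6
        rw [Finset.card_image_of_injective _ hinj, Nat.card_Icc] at h7
        have h8 : (((Finset.range (Nat.primeCounting x)).filter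
            (fun k => (pr k : ℝ) ≤ Real.sqrt x)).card : ℝ) ≤ ⌊Real.sqrt x⌋₊ := by
          exact_mod_cast (by omega : _ ≤ ⌊Real.sqrt x⌋₊)
        exact h8.trans (Nat.floor_le (Real.sqrt_nonneg _))
      · have h9 : ∀ k ∈ (Finset.range (Nat.primeCounting x)).filter
            (fun k => ¬ (pr k : ℝ) ≤ Real.sqrt x), (Real.log ((pr k : ℝ) + 1)) ^ (-B) ≤
            2 ^ B / Real.log x ^ B := by
          intro k hk
          rw [Finset.mem_filter] at hk
          have h10 : Real.sqrt x < pr k := not_le.1 hk.2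
          have h11 : Real.log x / 2 ≤ Real.log ((pr k : ℝ) + 1) := by
            have : Real.log x / 2 = Real.log (Real.sqrt x) := by
              rw [Real.log_sqrt (by linarith)]
            rw [this]
            exact Real.log_le_log (Real.sqrt_pos.2 (by linarith)) (by linarith)
          calc (Real.log ((pr k : ℝ) + 1)) ^ (-B) ≤ (Real.log x / 2) ^ (-B) :=
                Real.rpow_le_rpow_of_nonpos (by positivity) h11 (by linarith)
            _ = 2 ^ B / Real.log x ^ B := by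
                rw [Real.rpow_neg (by positivity), Real.div_rpow hlog.le (by norm_num), inv_div]
        refine (Finset.sum_le_sum h9).trans ?_
        rw [Finset.sum_const, nsmul_eq_mul]
        refine mul_le_mul_of_nonneg_right ?_ (by positivity)
        have h6 : (((Finset.range (Nat.primeCounting x)).filter
            (fun k => ¬ (pr k : ℝ) ≤ Real.sqrt x)).image pr) ⊆ Finset.Icc 1 x := by
          intro p hp
          rw [Finset.mem_image] at hp
          obtain ⟨k, hk, rfl⟩ := hp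
          rw [Finset.mem_filter] at hk
          rw [Finset.mem_Icc]
          exact ⟨(pr_prime k).one_lt.le, hmem x k hk.1⟩
        have h7 := Finset.card_le_card h6
        rw [Finset.card_image_of_injective _ hinj, Nat.card_Icc] at h7
        exact_mod_cast (by omega : _ ≤ x)
    have h12 : Real.sqrt x * Real.log x ^ B ≤ x := by
      calc _ ≤ Real.sqrt x * Real.sqrt x := mul_le_mul_of_nonneg_left h2 (Real.sqrt_nonneg _)
        _ = x := Real.mul_self_sqrt (by linarith)
    have h13 : (x : ℝ) * (2 ^ B / Real.log x ^ B) * Real.log x ^ B = x * 2 ^ B := by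
      field_simp
    have h14 : 0 ≤ (x0 : ℝ) * (1 + Real.log (x0 + 1) ^ B) := by positivity
    calc _ ≤ (Real.sqrt x + x * (2 ^ B / Real.log x ^ B)) * Real.log x ^ B :=
          mul_le_mul_of_nonneg_right hsplit hpow.le
      _ = Real.sqrt x * Real.log x ^ B + x * (2 ^ B / Real.log x ^ B) * Real.log x ^ B := by ring
      _ ≤ x + x * 2 ^ B := by rw [h13]; linarith
      _ ≤ _ := by nlinarith
  · -- small x
    rw [le_div_iff₀ hpow]
    have h3 : Real.log x ^ B ≤ Real.log (x0 + 1) ^ B := by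
      refine Real.rpow_le_rpow hlog.le (Real.log_le_log (by linarith) ?_) hB0.le
      have : (x : ℝ) ≤ x0 := by exact_mod_cast h.le
      linarith
    have h15 : (1 : ℝ) ≤ x0 := by
      have : 1 ≤ x0 := by omega
      exact_mod_cast this
    calc _ ≤ (x : ℝ) * Real.log (x0 + 1) ^ B :=
          mul_le_mul htriv h3 hpow.le (by linarith)
      _ ≤ _ := by
          have h16 : Real.log (x0 + 1 : ℝ) ^ B ≤ x0 * (1 + Real.log (x0 + 1) ^ B) := by nlinarith
          nlinarith

end Pool.Agent.Q255.EP
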