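import Pool.Agent.Q255.EP.Stm
import Pool.Agent.Q163.HC.EHb

/-!
# The price of square root cancellation: further statements
-/

set_option autoImplicit false

namespace Pool.Agent.Q255.EP

open Filter Topology MeasureTheory Pool.Agent.Q255.IC Pool.Agent.Q255.IR
open scoped ENNReal

/-- the signs of `ω` outside `F`, and the signs given by `G` at `F` -/
def ov (F G : Finset ℕ) (ω : ℕ → Bool) : ℕ → Bool := fun k => if k ∈ F then decide (k ∈ G) else ω k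

/-- Finite changes of the signs change the information by a bounded amount.

Proof: `D ν n = ∑_s q(s) log (2^n q(s))`, `q(s)` the probability of the word `s`; the law `q'` of the changed word is
the image of `q` under a map `t` of the words with fibres of at most `2^card F` elements; log sum inequality
in every fibre: `∑_{s ∈ fibre} q(s) log q(s) ≥ q'(s') log (q'(s')/card fibre)`.  (If `F` is not contained in `range n`
only `F ∩ range n` matters.) -/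
def S_FIN : Prop :=
  ∀ (ν : Measure (ℕ → Bool)) [IsProbabilityMeasure ν] (F G : Finset ℕ),
    IsProbabilityMeasure (ν.map (ov F G)) ∧
      ∀ n, D (ν.map (ov F G)) n ≤ D ν n + F.card * Real.log 2

/-- The diagonal Elliott-Halberstam bound for `μ f` and `μ f log`, all laws.

Proof: for fixed `A` (a natural number) apply `S_ENG` to `W_J` = the functions `m ↦ wt l N q m / 4` for `1 ≤ m ≤ R`,
`0` otherwise, with `R ≤ 2^J`, `1 ≤ N, q ≤ 2^(J A)` (`Pool.Agent.Q163.HC.wt_le`: `|wt| ≤ 4`), and use it for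
`2^(J-1) < R ≤ 2^J`, `M = R`: for all `ε > 0`: `|∑_{m ≤ R} wt l N q m f(m)| ≤ C R^((1+δ)/2+ε)` for all `R ≥ 1` and
`N, q ≤ R^A`, hence at most `4 R^σ'` for large `R`, `(1+δ)/2 < σ' < σ`.  Then
`Pool.Agent.Q163.HC.diag_final` (`cm ω = mult c`, `c p = sg ω (Nat.count Nat.Prime p)`); the factor
`8 (1+log (N+1))^4` is absorbed as in `diagonal_ae` of `Results/MP_e9eb55_nt/RandomChanges.lean`. -/
def S_DIAG : Prop :=
  ∀ (ν : Measure (ℕ → Bool)) [IsProbabilityMeasure ν] (δ : ℝ), 0 ≤ δ →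
    (∀ ε : ℝ, 0 < ε → ∀ᶠ x : ℕ in atTop, D ν (Nat.primeCounting x) ≤ (x : ℝ) ^ (δ + ε)) →
    ∀ᵐ ω ∂ν, ∀ σ θ : ℝ, (1 + δ) / 2 < σ → σ ≤ 1 → 0 < θ → θ < 1 → ∀ᶠ N : ℕ in atTop, ∀ l : Bool,
      Pool.Agent.Q163.HC.Dg (Pool.Agent.Q163.HC.gf (cm ω) l) N θ ≤ (N : ℝ) ^ (σ + θ * (1 - σ))

/-- Independent signs with means `d_k`: information and expectations of products.

Proof: as `S_LAW` (product measure). -/
def S_LAWE : Prop :=
  ∀ d : ℕ → ℝ, (∀ k, |d k| ≤ 1) → ∃ ν : Measure (ℕ → Bool), IsProbabilityMeasure ν ∧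
    (∀ n, D ν n ≤ ∑ k ∈ Finset.range n, d k ^ 2) ∧
    ∀ s : Finset ℕ, ∫ ω, ∏ k ∈ s, sg ω k ∂ν = ∏ k ∈ s, d k

/-- The diagonal bound is optimal in the mean for independent signs with means `-p^(β-1)`.

Proof.  `T_q(N) = ∑_{m < N, q ∣ m} Λ(N-m) g(m)`, `g(m) = μ(m) f(m) lg l m`.  `Q = Z^θ`, `M = Z/(2Q)`, primes `q ∈ (Q/2, Q]`,
`N ∈ (Z, 2Z]`, `q ∤ N`.
(a) `E |T_q(N)| ≥ |E f(q) T_q(N)|`, `f(q) f(q m') = f(m')`, and `E μ(q m') f(m') = -μ(m')² m'^(β-1)` for `q ∤ m'`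
(`0` for `q ∣ m'`).  All terms have the same sign, so keep only the primes `m' ∈ (M/2, M]`, `m' ≠ q`:
`E |T_q(N)| ≥ ∑_{m'} Λ(N - q m') M^(β-1)` (`lg l (q m') ≥ 1`).
(b) Sum over `N ∈ (Z, 2Z]`, `q ∤ N`: `n = N - q m'` runs over an interval which contains `(Z, 3Z/2]` (`q m' ≤ Z/2`), and
`q ∤ N` means `q ∤ n`; so the sum of `Λ(N - q m')` is at least `ψ(3Z/2) - ψ(Z) - O(log² Z) ≥ Z/4`.
(c) So `∑_N ∑_q E |T_q(N)| ≥ c Z · Q · M^β / log² Z ≥ c' Z · Z^(β + θ (1-β)) / log² Z` (at least `c Q/log Q` primes in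
`(Q/2, Q]`, `c M/log M` in `(M/2, M]`).
(d) The second terms: `∑_q |T_1(N)|/(q-1) ≤ 4 |T_1(N)|` and `E T_1(N)² ≤ log⁴ (2N) ∑_{m,m' < N} (m m'/(m,m')²)^(β-1)
≤ log⁴ (2N) ∑_g (∑_{a ≤ N/g} a^(β-1))² ≤ C log⁴ (2N) N^(2β)` (squarefree `m`, `m'`; `2 β > 1`).
(e) `D ≥ ∑_q |T_q(N) - T_1(N)/φ(q)|`, average over `N`; `β < β + θ (1-β)`. -/
def S_DLOW : Prop :=
  ∀ (ν : Measure (ℕ → Bool)) [IsProbabilityMeasure ν] (β : ℝ), 1 / 2 < β → β < 1 →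
    (∀ s : Finset ℕ, ∫ ω, ∏ k ∈ s, sg ω k ∂ν = ∏ k ∈ s, -(pr k : ℝ) ^ (β - 1)) →
    ∀ θ ε : ℝ, 0 < θ → θ < 1 → 0 < ε → ∀ᶠ Z : ℕ in atTop, ∀ l : Bool, ∃ N : ℕ, Z < N ∧ N ≤ 2 * Z ∧
      (N : ℝ) ^ (β + θ * (1 - β) - ε) ≤
        ∫ ω, Pool.Agent.Q163.HC.Dg (Pool.Agent.Q163.HC.gf (cm ω) l) N θ ∂ν

end Pool.Agent.Q255.EP
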