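import Pool.Agent.Q255.EP.Stm2

/-!
# Correlations with shifted primes and central values: statements
-/

set_option autoImplicit false

namespace Pool.Agent.Q255.EP

open Filter Topology MeasureTheory Pool.Agent.Q255.IC Pool.Agent.Q255.IR
open scoped ENNReal

/-- `∑_{n ≤ X} μ(n) f(n) Λ(n - h)`, `Λ = 0` at the numbers `≤ 0` -/
noncomputable def cor (g : ℕ → ℝ) (h : ℤ) (X : ℕ) : ℝ :=
  ∑ n ∈ Finset.Icc 1 X, ((ArithmeticFunction.moebius n : ℤ) : ℝ) * g n *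
    ArithmeticFunction.vonMangoldt ((n : ℤ) - h).toNat

/-- All shifts at once, all laws.

Proof: for fixed `A` (a natural number) `S_ENG` with `W_J` = the functions
`m ↦ μ(m) Λ(m - h) / ((A + 2) (J + 1))` for `1 ≤ m ≤ R`, `0` otherwise, `R ≤ 2^J`, `|h| ≤ 2^(J A)`
(`Λ(m-h) ≤ log (2^J + 2^(JA)) ≤ (A+2)(J+1)`).  For `X ≥ 1` take `2^(J-1) < X ≤ 2^J` (`J = 0` if `X = 1`) and `M = X`. -/
def S_COR : Prop :=
  ∀ (ν : Measure (ℕ → Bool)) [IsProbabilityMeasure ν] (δ : ℝ), 0 ≤ δ →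
    (∀ ε : ℝ, 0 < ε → ∀ᶠ x : ℕ in atTop, D ν (Nat.primeCounting x) ≤ (x : ℝ) ^ (δ + ε)) →
    ∀ᵐ ω ∂ν, ∀ (A : ℕ) (ε : ℝ), 0 < ε → ∃ C : ℝ, ∀ (X : ℕ) (h : ℤ), 1 ≤ X → |h| ≤ (X : ℤ) ^ A →
      |cor (cm ω) h X| ≤ C * (X : ℝ) ^ ((1 + δ) / 2 + ε)

/-- Lower bound for the mean, for independent signs with means `-p^(β-1)`, for every fixed shift.

Proof: `E μ(n) f(n) = μ(n)² n^(β-1)`, so the mean is `∑_{n ≤ X} μ(n)² n^(β-1) Λ(n-h)`, all terms `≥ 0`, at least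
`X^(β-1) ∑_{X/2 < n ≤ X, n squarefree} Λ(n-h)`.  Now `∑_{X/2<n≤X} Λ(n-h) = X/2 + o(X)` (prime number theorem), and the sum over
the `n` divisible by `r²` for some prime `r` is at most (`r ∣ h`: `O(log² X)` in total, `n - h` is a power of `r`)
`∑_{r ≤ R} (X/2)/φ(r²) + o(X)` (primes in progressions modulo `r²`) plus `∑_{R < r ≤ X^(1/4)} C X/r²` (Brun-Titchmarsh) plus
`∑_{r > X^(1/4)} (X/r² + 1) log (2X)` (trivially, `r² ≤ X`; at most `C X^(3/4) log X`).  `∑_r 1/φ(r²) = ∑ 1/(r(r-1)) < 0.78`.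
(Any other proof of a lower bound `c X^β/(log X)^C` will do; the libraries may contain squarefree shifted primes.) -/
def S_COL : Prop :=
  ∀ (ν : Measure (ℕ → Bool)) [IsProbabilityMeasure ν] (β : ℝ), 1 / 2 < β → β < 1 →
    (∀ s : Finset ℕ, ∫ ω, ∏ k ∈ s, sg ω k ∂ν = ∏ k ∈ s, -(pr k : ℝ) ^ (β - 1)) →
    ∀ (h : ℤ) (ε : ℝ), 0 < ε → ∀ᶠ X : ℕ in atTop, (X : ℝ) ^ (β - ε) ≤ ∫ ω, cor (cm ω) h X ∂ν

end Pool.Agent.Q255.EP
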